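import Mathlib
import Pool.Agent.Q256.UI.Stm

set_option autoImplicit false

namespace Pool.Agent.Q31.UIDEG

open Finset MvPolynomial
open Pool.Agent.Q256.UP (PBox)
open Pool.Agent.Q256.UI

theorem tc_add (F G : MvPolynomial (Fin 2) ℤ) (θ : ℝ) (k j : ℕ) :
    tc (F + G) θ k j = tc F θ k j + tc G θ k j := by
  unfold tc
  rw [← sum_add_distrib]
  refine sum_congr rfl fun i _ => ?_
  rw [MvPolynomial.coeff_add]
  push_cast
  ring

theorem tc_zero (G : MvPolynomial (Fin 2) ℤ) (θ : ℝ) (k j : ℕ) (h : G.totalDegree < k) :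
    tc G θ k j = 0 := by
  unfold tc
  refine sum_eq_zero fun i hi => ?_
  have hi' : i ≤ k := by
    rw [mem_range] at hi
    omega
  have : MvPolynomial.coeff (Finsupp.single 0 (k - i) + Finsupp.single 1 i) G = 0 := by
    apply MvPolynomial.coeff_eq_zero_of_totalDegree_lt
    rw [← Finsupp.degree_apply, map_add, Finsupp.degree_single, Finsupp.degree_single]
    omega
  rw [this]
  simp

theorem tc_mono (θ : ℝ) (k : ℕ) (t : ℤ) :
    tc (monomial (Finsupp.single 0 k) t) θ k 0 = t := by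
  unfold tc
  rw [sum_eq_single 0]
  · simp
  · intro i _ hi0
    have : MvPolynomial.coeff (Finsupp.single 0 (k - i) + Finsupp.single 1 i)
        (monomial (Finsupp.single (0 : Fin 2) k) t) = 0 := by
      rw [MvPolynomial.coeff_monomial, if_neg]
      intro h
      have h1 := DFunLike.congr_fun h 1
      simp at h1
      exact hi0 h1.symm
    rw [this]
    simp
  · intro h
    simp at h

theorem deg_mono (k : ℕ) (t : ℤ) :
    (monomial (Finsupp.single (0 : Fin 2) k) t : MvPolynomial (Fin 2) ℤ).totalDegree ≤ k := by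
  refine (MvPolynomial.totalDegree_monomial_le _ _).trans ?_
  simp

theorem rho_mono (d : ℕ) (hd : 5 ≤ d) (F : MvPolynomial (Fin 2) ℤ) (θ : ℝ) (t : ℤ) :
    rho d (tc (F + monomial (Finsupp.single 0 (d - 2)) t) θ) = rho d (tc F θ) + t := by
  have h0 := deg_mono (d - 2) t
  have a1 := tc_zero (monomial (Finsupp.single 0 (d - 2)) t) θ d 2 (by omega)
  have a2 := tc_zero (monomial (Finsupp.single 0 (d - 2)) t) θ d 1 (by omega)
  have a3 := tc_zero (monomial (Finsupp.single 0 (d - 2)) t) θ (d - 1) 0 (by omega)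
  have a4 := tc_zero (monomial (Finsupp.single 0 (d - 2)) t) θ (d - 1) 1 (by omega)
  unfold rho kap
  simp only [tc_add]
  rw [a1, a2, a3, a4, tc_mono]
  ring

theorem deg : S_DEG := by
  refine ⟨?_, ?_⟩
  · intro d F G θ hd hG
    have a1 := tc_zero G θ d 2 (by omega)
    have a2 := tc_zero G θ d 1 (by omega)
    have a3 := tc_zero G θ (d - 1) 0 (by omega)
    have a4 := tc_zero G θ (d - 1) 1 (by omega)
    have a5 := tc_zero G θ (d - 2) 0 (by omega)
    unfold rho kap
    simp only [tc_add]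
    rw [a1, a2, a3, a4, a5]
    simp
  · intro d H Φ θ hd
    set V : Set (MvPolynomial (Fin 2) ℤ) := {F | F ∈ Fam Φ d H ∧ |rho d (tc F θ)| ≤ 1 / 4}
      with hV
    have hfin : Finite (PBox (d - 1) (2 * H)) := (Pool.Agent.Q256.UP.finite_pbox _ _).to_subtype
    have hmem : ∀ p : V × Fin (H + 1),
        p.1.1 + monomial (Finsupp.single 0 (d - 2)) ((p.2 : ℕ) : ℤ) - Φ ∈ PBox (d - 1) (2 * H) := by
      rintro ⟨⟨F, hF, hr⟩, t⟩
      obtain ⟨G, hG, rfl⟩ := hF
      have e : (Φ + G) + monomial (Finsupp.single 0 (d - 2)) ((t : ℕ) : ℤ) - Φ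
          = G + monomial (Finsupp.single 0 (d - 2)) ((t : ℕ) : ℤ) := by ring
      show (Φ + G) + monomial (Finsupp.single 0 (d - 2)) ((t : ℕ) : ℤ) - Φ ∈ PBox (d - 1) (2 * H)
      rw [e, two_mul]
      refine Pool.Agent.Q256.UP.pbox_add hG ?_
      refine Pool.Agent.Q256.UP.pbox_monomial 0 (d - 2) (by omega) _ ?_
      rw [abs_of_nonneg (by positivity)]
      have := t.2
      exact_mod_cast (by omega : (t : ℕ) ≤ H)
    have hinj : Function.Injective (fun p : V × Fin (H + 1) =>
        (⟨_, hmem p⟩ : PBox (d - 1) (2 * H))) := by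
      rintro ⟨⟨F, hF, hr⟩, t⟩ ⟨⟨F', hF', hr'⟩, t'⟩ h
      have h1 : F + monomial (Finsupp.single 0 (d - 2)) ((t : ℕ) : ℤ) - Φ =
          F' + monomial (Finsupp.single 0 (d - 2)) ((t' : ℕ) : ℤ) - Φ := congrArg Subtype.val h
      have h2 : F + monomial (Finsupp.single 0 (d - 2)) ((t : ℕ) : ℤ) =
          F' + monomial (Finsupp.single 0 (d - 2)) ((t' : ℕ) : ℤ) := by
        have := congrArg (fun z => z + Φ) h1
        simpa using this
      have h3 := rho_mono d hd F θ ((t : ℕ) : ℤ)
      have h4 := rho_mono d hd F' θ ((t' : ℕ) : ℤ)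
      rw [h2, h4] at h3
      have hr1 := abs_le.1 hr
      have hr2 := abs_le.1 hr'
      have h5 : |(((t : ℕ) : ℤ) : ℝ) - (((t' : ℕ) : ℤ) : ℝ)| < 1 := by
        rw [abs_lt]
        constructor <;> linarith [hr1.1, hr1.2, hr2.1, hr2.2]
      have h6 : ((t : ℕ) : ℤ) = ((t' : ℕ) : ℤ) := by
        have h7 : |((t : ℕ) : ℤ) - ((t' : ℕ) : ℤ)| < 1 := by
          exact_mod_cast h5
        rw [Int.abs_lt_one_iff] at h7
        omega
      have h8 : t = t' := Fin.ext (by exact_mod_cast h6)
      subst h8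
      have h9 : F = F' := by
        exact add_right_cancel h2
      subst h9
      rfl
    have hc := Nat.card_le_card_of_injective _ hinj
    rw [Nat.card_prod, Nat.card_eq_fintype_card (α := Fin (H + 1)), Fintype.card_fin,
      Pool.Agent.Q256.UP.card_pbox] at hc
    have e2 : d - 1 + 2 = d + 1 := by omega
    rw [e2] at hc
    exact hc

end Pool.Agent.Q31.UIDEG
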