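import Mathlib

/-!
# The ant `LR` in a boolean model

Cells are boolean (`false` : next turn is a left turn, `true` : next turn is a right turn).
-/

namespace Q31.Ant

/-- A letter of a rule word. -/
inductive Letter
  | L
  | R
  deriving DecidableEq

/-- The four directions. -/
inductive Dir
  | E
  | N
  | W
  | S
  deriving DecidableEq

/-- The unit vector of a direction. -/
def Dir.vec : Dir → ℤ × ℤ
  | .E => (1, 0)
  | .N => (0, 1)
  | .W => (-1, 0)
  | .S => (0, -1)

/-- The direction rotated by a quarter turn, counterclockwise for `L` and clockwise for `R`. -/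
def turn : Letter → Dir → Dir
  | .L, .E => .N
  | .L, .N => .W
  | .L, .W => .S
  | .L, .S => .E
  | .R, .E => .S
  | .R, .S => .W
  | .R, .W => .N
  | .R, .N => .E

/-- Boolean version of a quarter turn. -/
def turnB (b : Bool) (d : Dir) : Dir := turn (if b then .R else .L) d

/-- The state of the boolean ant. -/
@[ext] structure St where
  g : ℤ × ℤ → Bool
  p : ℤ × ℤ
  d : Dir

/-- One step of the boolean ant. -/
def nxt (s : St) : St where
  g := fun q => if q = s.p then !(s.g s.p) else s.g q
  p := s.p + (turnB (s.g s.p) s.d).vec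
  d := turnB (s.g s.p) s.d

/-! ### Rotation symmetry -/

/-- The half turn of the plane about the point `(-1/2, 1/2)`. -/
def rho (q : ℤ × ℤ) : ℤ × ℤ := (-1 - q.1, 1 - q.2)

theorem rho_rho (q : ℤ × ℤ) : rho (rho q) = q := by
  ext <;> simp [rho]

/-- The opposite direction. -/
def opp : Dir → Dir
  | .E => .W
  | .N => .S
  | .W => .E
  | .S => .N

/-- The rotated state. -/
def Rot (s : St) : St where
  g := fun q => s.g (rho q)
  p := rho s.p
  d := opp s.d

theorem Rot_Rot (s : St) : Rot (Rot s) = s := by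
  ext q
  · simp [Rot, rho_rho]
  · simp [Rot, rho_rho]
  · simp [Rot, rho_rho]
  · cases h : s.d <;> simp [Rot, opp, h]

theorem turnB_opp (b : Bool) (d : Dir) : turnB b (opp d) = opp (turnB b d) := by
  cases b <;> cases d <;> rfl

theorem rho_add (q : ℤ × ℤ) (d : Dir) : rho (q + d.vec) = rho q + (opp d).vec := by
  cases d <;> ext <;> simp [rho, Dir.vec, opp] <;> ring

theorem nxt_Rot (s : St) : nxt (Rot s) = Rot (nxt s) := by
  have h1 : (Rot s).g (Rot s).p = s.g s.p := by simp [Rot, rho_rho]
  have hd : (nxt (Rot s)).d = (Rot (nxt s)).d := by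
    show turnB ((Rot s).g (Rot s).p) (Rot s).d = opp (turnB (s.g s.p) s.d)
    rw [h1]; exact turnB_opp _ _
  have hp : (nxt (Rot s)).p = (Rot (nxt s)).p := by
    show (Rot s).p + (turnB ((Rot s).g (Rot s).p) (Rot s).d).vec
      = rho (s.p + (turnB (s.g s.p) s.d).vec)
    rw [h1, rho_add, ← turnB_opp]; rfl
  have hg : (nxt (Rot s)).g = (Rot (nxt s)).g := by
    funext q
    show (if q = (Rot s).p then !((Rot s).g (Rot s).p) else (Rot s).g q)
      = if rho q = s.p then !(s.g s.p) else s.g (rho q)
    rw [h1]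
    by_cases h : rho q = s.p
    · have : q = (Rot s).p := by
        show q = rho s.p
        rw [← h, rho_rho]
      rw [if_pos this, if_pos h]
    · have : ¬ q = (Rot s).p := by
        intro hq
        apply h
        rw [hq]; exact rho_rho _
      rw [if_neg this, if_neg h]; rfl
  cases h2 : nxt (Rot s)
  cases h3 : Rot (nxt s)
  rw [h2, h3] at hd hp hg
  simp only at hd hp hg
  rw [hd, hp, hg]

theorem iter_Rot (k : ℕ) (s : St) : nxt^[k] (Rot s) = Rot (nxt^[k] s) := by
  induction k generalizing s with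
  | zero => rfl
  | succ k ih => rw [Function.iterate_succ_apply, Function.iterate_succ_apply, nxt_Rot, ih]

/-! ### Runs that stay in a region -/

/-- `Run Z k s t` : after `k` steps the state `s` becomes `t`, and all positions at times
`0, …, k-1` lie in `Z`. -/
def Run (Z : ℤ × ℤ → Prop) (k : ℕ) (s t : St) : Prop :=
  nxt^[k] s = t ∧ ∀ j < k, Z (nxt^[j] s).p

theorem Run.trans {Z : ℤ × ℤ → Prop} {k l : ℕ} {s t u : St} (h1 : Run Z k s t)
    (h2 : Run Z l t u) : Run Z (k + l) s u := by
  refine ⟨?_, ?_⟩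
  · rw [Nat.add_comm, Function.iterate_add_apply, h1.1, h2.1]
  · intro j hj
    by_cases hjk : j < k
    · exact h1.2 j hjk
    · have : j = (j - k) + k := by omega
      rw [this, Function.iterate_add_apply, h1.1]
      exact h2.2 _ (by omega)

theorem Run.mono {Z Z' : ℤ × ℤ → Prop} {k : ℕ} {s t : St} (h : Run Z k s t)
    (hZ : ∀ q, Z q → Z' q) : Run Z' k s t := ⟨h.1, fun j hj => hZ _ (h.2 j hj)⟩

theorem Run.one {Z : ℤ × ℤ → Prop} {s : St} (h : Z s.p) : Run Z 1 s (nxt s) :=
  ⟨rfl, fun j hj => by
    have : j = 0 := by omega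
    subst this; exact h⟩

theorem Run.zero {Z : ℤ × ℤ → Prop} {s : St} : Run Z 0 s s :=
  ⟨rfl, fun j hj => by omega⟩

/-! ### Passing a steady column -/

/-- The strip. -/
def strip (q : ℤ × ℤ) : Prop := q.2 = 0 ∨ q.2 = 1

/-- The grid with the strip cells of the columns `a ≤ x < b` flipped. -/
def flipS (a b : ℤ) (g : ℤ × ℤ → Bool) : ℤ × ℤ → Bool := fun q =>
  if a ≤ q.1 ∧ q.1 < b ∧ (q.2 = 0 ∨ q.2 = 1) then !(g q) else g q

theorem flipS_self (a : ℤ) (g : ℤ × ℤ → Bool) : flipS a a g = g := by
  funext q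
  unfold flipS
  rw [if_neg]
  omega

theorem flipS_flipS (a b : ℤ) (g : ℤ × ℤ → Bool) : flipS a b (flipS a b g) = g := by
  funext q
  unfold flipS
  by_cases h : a ≤ q.1 ∧ q.1 < b ∧ (q.2 = 0 ∨ q.2 = 1)
  · simp [h]
  · simp [h]

theorem flipS_comp {a b c : ℤ} (hab : a ≤ b) (hbc : b ≤ c) (g : ℤ × ℤ → Bool) :
    flipS b c (flipS a b g) = flipS a c g := by
  funext q
  unfold flipS
  split_ifs <;> first | rfl | (exfalso; omega)

theorem flipS_comp' {a b c : ℤ} (hab : a ≤ b) (hbc : b ≤ c) (g : ℤ × ℤ → Bool) :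
    flipS a b (flipS b c g) = flipS a c g := by
  funext q
  unfold flipS
  split_ifs <;> first | rfl | (exfalso; omega)

/-- Passing one column to the right. -/
theorem col_right (g : ℤ × ℤ → Bool) (a : ℤ) (h0 : g (a, 0) = false) (h1 : g (a, 1) = true) :
    Run (fun q => q = (a, 0) ∨ q = (a, 1)) 2 ⟨g, (a, a % 2), .E⟩
      ⟨flipS a (a + 1) g, (a + 1, (a + 1) % 2), .E⟩ := by
  rcases Int.emod_two_eq_zero_or_one a with ha | ha
  · have ha' : (a + 1) % 2 = 1 := by omega
    rw [ha, ha']
    have e1 : nxt ⟨g, (a, 0), .E⟩ = ⟨fun q => if q = (a, 0) then true else g q, (a, 1), .N⟩ := by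
      simp [nxt, h0, turnB, turn, Dir.vec]
    have e2 : nxt ⟨fun q => if q = (a, 0) then true else g q, (a, 1), .N⟩
        = ⟨flipS a (a + 1) g, (a + 1, 1), .E⟩ := by
      have : (fun q : ℤ × ℤ => if q = (a, 1) then false else if q = (a, 0) then true else g q)
          = flipS a (a + 1) g := by
        funext q
        obtain ⟨x, y⟩ := q
        unfold flipS
        simp only [Prod.mk.injEq]
        by_cases hx : x = a
        · subst hx
          by_cases hy : y = 1
          · subst hy; simp [h1]
          · by_cases hy' : y = 0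
            · subst hy'; simp [h0]
            · simp [hy, hy']
        · have : ¬ (a ≤ x ∧ x < a + 1 ∧ (y = 0 ∨ y = 1)) := by omega
          rw [if_neg this]; simp [hx]
      rw [← this]; simp [nxt, h1, turnB, turn, Dir.vec]
    have r1 : Run (fun q => q = (a, 0) ∨ q = (a, 1)) 1 ⟨g, (a, 0), .E⟩ _ :=
      Run.one (Or.inl rfl)
    rw [e1] at r1
    have r2 : Run (fun q => q = (a, 0) ∨ q = (a, 1)) 1
        ⟨fun q => if q = (a, 0) then true else g q, (a, 1), .N⟩ _ :=
      Run.one (Or.inr rfl)
    rw [e2] at r2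
    exact r1.trans r2
  · have ha' : (a + 1) % 2 = 0 := by omega
    rw [ha, ha']
    have e1 : nxt ⟨g, (a, 1), .E⟩ = ⟨fun q => if q = (a, 1) then false else g q, (a, 0), .S⟩ := by
      simp [nxt, h1, turnB, turn, Dir.vec]
    have e2 : nxt ⟨fun q => if q = (a, 1) then false else g q, (a, 0), .S⟩
        = ⟨flipS a (a + 1) g, (a + 1, 0), .E⟩ := by
      have : (fun q : ℤ × ℤ => if q = (a, 0) then true else if q = (a, 1) then false else g q)
          = flipS a (a + 1) g := by
        funext q
        obtain ⟨x, y⟩ := q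
        unfold flipS
        simp only [Prod.mk.injEq]
        by_cases hx : x = a
        · subst hx
          by_cases hy : y = 1
          · subst hy; simp [h1]
          · by_cases hy' : y = 0
            · subst hy'; simp [h0]
            · simp [hy, hy']
        · have : ¬ (a ≤ x ∧ x < a + 1 ∧ (y = 0 ∨ y = 1)) := by omega
          rw [if_neg this]; simp [hx]
      rw [← this]; simp [nxt, h0, turnB, turn, Dir.vec]
    have r1 : Run (fun q => q = (a, 0) ∨ q = (a, 1)) 1 ⟨g, (a, 1), .E⟩ _ :=
      Run.one (Or.inr rfl)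
    rw [e1] at r1
    have r2 : Run (fun q => q = (a, 0) ∨ q = (a, 1)) 1
        ⟨fun q => if q = (a, 1) then false else g q, (a, 0), .S⟩ _ :=
      Run.one (Or.inl rfl)
    rw [e2] at r2
    exact r1.trans r2

/-- Passing one column to the left. -/
theorem col_left (g : ℤ × ℤ → Bool) (a : ℤ) (h0 : g (a, 0) = true) (h1 : g (a, 1) = false) :
    Run (fun q => q = (a, 0) ∨ q = (a, 1)) 2 ⟨g, (a, a % 2), .W⟩
      ⟨flipS a (a + 1) g, (a - 1, (a - 1) % 2), .W⟩ := by
  rcases Int.emod_two_eq_zero_or_one a with ha | ha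
  · have ha' : (a - 1) % 2 = 1 := by omega
    rw [ha, ha']
    have e1 : nxt ⟨g, (a, 0), .W⟩ = ⟨fun q => if q = (a, 0) then false else g q, (a, 1), .N⟩ := by
      simp [nxt, h0, turnB, turn, Dir.vec]
    have e2 : nxt ⟨fun q => if q = (a, 0) then false else g q, (a, 1), .N⟩
        = ⟨flipS a (a + 1) g, (a - 1, 1), .W⟩ := by
      have : (fun q : ℤ × ℤ => if q = (a, 1) then true else if q = (a, 0) then false else g q)
          = flipS a (a + 1) g := by
        funext q
        obtain ⟨x, y⟩ := q
        unfold flipS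
        simp only [Prod.mk.injEq]
        by_cases hx : x = a
        · subst hx
          by_cases hy : y = 1
          · subst hy; simp [h1]
          · by_cases hy' : y = 0
            · subst hy'; simp [h0]
            · simp [hy, hy']
        · have : ¬ (a ≤ x ∧ x < a + 1 ∧ (y = 0 ∨ y = 1)) := by omega
          rw [if_neg this]; simp [hx]
      rw [← this]; simp [nxt, h1, turnB, turn, Dir.vec, sub_eq_add_neg]
    have r1 : Run (fun q => q = (a, 0) ∨ q = (a, 1)) 1 ⟨g, (a, 0), .W⟩ _ :=
      Run.one (Or.inl rfl)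
    rw [e1] at r1
    have r2 : Run (fun q => q = (a, 0) ∨ q = (a, 1)) 1
        ⟨fun q => if q = (a, 0) then false else g q, (a, 1), .N⟩ _ :=
      Run.one (Or.inr rfl)
    rw [e2] at r2
    exact r1.trans r2
  · have ha' : (a - 1) % 2 = 0 := by omega
    rw [ha, ha']
    have e1 : nxt ⟨g, (a, 1), .W⟩ = ⟨fun q => if q = (a, 1) then true else g q, (a, 0), .S⟩ := by
      simp [nxt, h1, turnB, turn, Dir.vec]
    have e2 : nxt ⟨fun q => if q = (a, 1) then true else g q, (a, 0), .S⟩
        = ⟨flipS a (a + 1) g, (a - 1, 0), .W⟩ := by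
      have : (fun q : ℤ × ℤ => if q = (a, 0) then false else if q = (a, 1) then true else g q)
          = flipS a (a + 1) g := by
        funext q
        obtain ⟨x, y⟩ := q
        unfold flipS
        simp only [Prod.mk.injEq]
        by_cases hx : x = a
        · subst hx
          by_cases hy : y = 1
          · subst hy; simp [h1]
          · by_cases hy' : y = 0
            · subst hy'; simp [h0]
            · simp [hy, hy']
        · have : ¬ (a ≤ x ∧ x < a + 1 ∧ (y = 0 ∨ y = 1)) := by omega
          rw [if_neg this]; simp [hx]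
      rw [← this]; simp [nxt, h0, turnB, turn, Dir.vec, sub_eq_add_neg]
    have r1 : Run (fun q => q = (a, 0) ∨ q = (a, 1)) 1 ⟨g, (a, 1), .W⟩ _ :=
      Run.one (Or.inr rfl)
    rw [e1] at r1
    have r2 : Run (fun q => q = (a, 0) ∨ q = (a, 1)) 1
        ⟨fun q => if q = (a, 1) then true else g q, (a, 0), .S⟩ _ :=
      Run.one (Or.inl rfl)
    rw [e2] at r2
    exact r1.trans r2

/-- Passing `n` steady columns to the right. -/
theorem pass_right (n : ℕ) (g : ℤ × ℤ → Bool) (a : ℤ)
    (h : ∀ x, a ≤ x → x < a + n → g (x, 0) = false ∧ g (x, 1) = true) :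
    Run (fun q => a ≤ q.1 ∧ strip q) (2 * n) ⟨g, (a, a % 2), .E⟩
      ⟨flipS a (a + n) g, (a + n, (a + n) % 2), .E⟩ := by
  induction n with
  | zero =>
    simp only [Nat.cast_zero, add_zero, mul_zero, flipS_self]
    exact Run.zero
  | succ n ih =>
    have ih' := ih (fun x hx hx' => h x hx (by push_cast; omega))
    have hc : flipS a (a + n) g (a + n, 0) = false ∧ flipS a (a + n) g (a + n, 1) = true := by
      have := h (a + n) (by omega) (by push_cast; omega)
      unfold flipS
      simp [this]
    have h2 := col_right (flipS a (a + n) g) (a + n) hc.1 hc.2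
    rw [flipS_comp (by omega) (by omega)] at h2
    have h3 := ih'.trans (h2.mono (Z' := fun q => a ≤ q.1 ∧ strip q) (by
      rintro q (hq | hq)
      · subst hq; exact ⟨by simp, Or.inl rfl⟩
      · subst hq; exact ⟨by simp, Or.inr rfl⟩))
    have e : (a + ((n + 1 : ℕ) : ℤ)) = a + n + 1 := by push_cast; ring
    rw [e]
    have e2 : 2 * (n + 1) = 2 * n + 2 := by ring
    rw [e2]
    exact h3

/-- Passing `n` steady columns to the left. -/
theorem pass_left (n : ℕ) (g : ℤ × ℤ → Bool) (a : ℤ)
    (h : ∀ x, a ≤ x → x < a + n → g (x, 0) = true ∧ g (x, 1) = false) :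
    Run (fun q => a ≤ q.1 ∧ strip q) (2 * n) ⟨g, (a + n - 1, (a + n - 1) % 2), .W⟩
      ⟨flipS a (a + n) g, (a - 1, (a - 1) % 2), .W⟩ := by
  induction n generalizing g with
  | zero =>
    simp only [Nat.cast_zero, add_zero, mul_zero, flipS_self]
    exact Run.zero
  | succ n ih =>
    have e : (a + ((n + 1 : ℕ) : ℤ)) = a + n + 1 := by push_cast; ring
    rw [e] at h ⊢
    have hc := h (a + n) (by omega) (by omega)
    have h2 := col_left g (a + n) hc.1 hc.2
    have ih' := ih (flipS (a + n) (a + n + 1) g) (fun x hx hx' => by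
      have := h x hx (by omega)
      unfold flipS
      rw [if_neg (by simp; omega), if_neg (by simp; omega)]
      exact this)
    rw [flipS_comp' (by omega) (by omega)] at ih'
    have h3 := (h2.mono (Z' := fun q => a ≤ q.1 ∧ strip q) (by
      rintro q (hq | hq)
      · subst hq; exact ⟨by simp, Or.inl rfl⟩
      · subst hq; exact ⟨by simp, Or.inr rfl⟩)).trans ih'
    have e2 : 2 * (n + 1) = 2 + 2 * n := by ring
    rw [e2]
    have e3 : a + (n : ℤ) + 1 - 1 = a + n := by ring
    rw [e3]
    exact h3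

end Q31.Ant
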