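import Mathlib
import Pool.Agent.Q31.AntModel

/-!
# The end gadget
-/

namespace Q31.Ant

/-- Look up a table: columns `0,…,5`, rows `-2,…,3`. -/
def look (T : List (List Bool)) (i y : ℤ) : Bool := (T.getD i.toNat []).getD (y + 2).toNat false

/-- The periodic background (columns modulo `6`, rows `-2,…,3`). -/
def bgL : List (List Bool) :=
  [[false, false, true, true, false, false],
   [false, false, true, false, false, true],
   [true, false, true, true, true, false],
   [true, true, false, false, true, true],
   [false, true, true, false, true, true],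
   [true, false, false, false, true, false]]

/-- The three columns at the end of the steady part (columns modulo `6`, rows `-2,…,3`). -/
def winL : List (List Bool) :=
  [[false, false, false, true, true, false],
   [false, false, false, true, true, false],
   [true, false, true, false, false, false],
   [true, false, false, true, true, true],
   [true, false, false, true, true, true],
   [true, true, true, false, true, false]]

/-- The parity of the number of occurrences of a cell in a list. -/
def par : List (ℤ × ℤ) → ℤ × ℤ → Bool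
  | [], _ => false
  | a :: l, q => if q = a then !(par l q) else par l q

theorem par_cons (a : ℤ × ℤ) (l : List (ℤ × ℤ)) (q : ℤ × ℤ) :
    par (a :: l) q = if q = a then !(par l q) else par l q := rfl

theorem par_of_notMem (l : List (ℤ × ℤ)) (q : ℤ × ℤ) (h : q ∉ l) : par l q = false := by
  induction l with
  | nil => rfl
  | cons a l ih =>
    have hne : ¬ q = a := fun h' => h (by rw [h']; exact List.mem_cons_self)
    rw [par_cons, if_neg hne, ih (fun h' => h (List.mem_cons_of_mem _ h'))]

/-- A state of the ant relative to a fixed initial table: the cells visited so far,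
the position and the direction. -/
structure MS where
  mods : List (ℤ × ℤ)
  p : ℤ × ℤ
  d : Dir
  deriving DecidableEq

/-- One step relative to the table `tab`. -/
def mstep (tab : ℤ × ℤ → Bool) (s : MS) : MS where
  mods := s.p :: s.mods
  p := s.p + (turnB (xor (tab s.p) (par s.mods s.p)) s.d).vec
  d := turnB (xor (tab s.p) (par s.mods s.p)) s.d

/-- The state of the ant with initial grid `g`, the relative state being translated by `X`
columns. -/
def emb (g : ℤ × ℤ → Bool) (X : ℤ) (s : MS) : St where
  g := fun q => xor (g q) (par s.mods (q.1 - X, q.2))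
  p := (s.p.1 + X, s.p.2)
  d := s.d

theorem nxt_emb (g : ℤ × ℤ → Bool) (X : ℤ) (tab : ℤ × ℤ → Bool) (s : MS)
    (h : g (s.p.1 + X, s.p.2) = tab s.p) : nxt (emb g X s) = emb g X (mstep tab s) := by
  have hv : (emb g X s).g (emb g X s).p = xor (tab s.p) (par s.mods s.p) := by
    show xor (g (s.p.1 + X, s.p.2)) (par s.mods (s.p.1 + X - X, s.p.2)) = _
    rw [h, add_sub_cancel_right]
  have hd : (nxt (emb g X s)).d = (emb g X (mstep tab s)).d := by
    show turnB ((emb g X s).g (emb g X s).p) s.d = _
    rw [hv]; rfl
  have hp : (nxt (emb g X s)).p = (emb g X (mstep tab s)).p := by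
    show (emb g X s).p + (turnB ((emb g X s).g (emb g X s).p) s.d).vec
      = ((s.p + (turnB (xor (tab s.p) (par s.mods s.p)) s.d).vec).1 + X,
        (s.p + (turnB (xor (tab s.p) (par s.mods s.p)) s.d).vec).2)
    rw [hv]
    ext
    · show s.p.1 + X + _ = s.p.1 + _ + X
      ring
    · rfl
  have hg : (nxt (emb g X s)).g = (emb g X (mstep tab s)).g := by
    funext q
    show (if q = (emb g X s).p then !((emb g X s).g (emb g X s).p) else (emb g X s).g q)
      = xor (g q) (par (s.p :: s.mods) (q.1 - X, q.2))
    by_cases hq : q = (s.p.1 + X, s.p.2)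
    · have e1 : (q.1 - X, q.2) = s.p := by rw [hq]; ext <;> simp
      rw [if_pos (show q = (emb g X s).p from hq)]
      have e2 : (emb g X s).g (emb g X s).p = xor (g q) (par s.mods (q.1 - X, q.2)) := by
        rw [hq]; rfl
      rw [e2, par_cons, if_pos e1]
      cases g q <;> cases par s.mods (q.1 - X, q.2) <;> rfl
    · have e1 : ¬ (q.1 - X, q.2) = s.p := by
        intro h'
        apply hq
        rw [← h']; ext <;> simp
      rw [if_neg (show ¬ q = (emb g X s).p from hq)]
      rw [par_cons, if_neg e1]
      rfl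
  cases h2 : nxt (emb g X s)
  cases h3 : emb g X (mstep tab s)
  rw [h2, h3] at hd hp hg
  simp only at hd hp hg
  rw [hd, hp, hg]

theorem mods_mono (tab : ℤ × ℤ → Bool) (s : MS) (k : ℕ) :
    ∀ q ∈ s.mods, q ∈ ((mstep tab)^[k] s).mods := by
  induction k generalizing s with
  | zero => intro q hq; exact hq
  | succ k ih =>
    intro q hq
    rw [Function.iterate_succ_apply]
    exact ih _ q (List.mem_cons_of_mem _ hq)

theorem pos_mem (tab : ℤ × ℤ → Bool) (s : MS) (k j : ℕ) (hj : j < k) :
    ((mstep tab)^[j] s).p ∈ ((mstep tab)^[k] s).mods := by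
  have : k = (k - (j + 1)) + (j + 1) := by omega
  rw [this, Function.iterate_add_apply, Function.iterate_succ_apply']
  exact mods_mono _ _ _ _ (List.mem_cons_self)

theorem iter_emb (g : ℤ × ℤ → Bool) (X : ℤ) (tab : ℤ × ℤ → Bool) (s : MS) (k : ℕ)
    (h : ∀ q ∈ ((mstep tab)^[k] s).mods, g (q.1 + X, q.2) = tab q) :
    ∀ j ≤ k, nxt^[j] (emb g X s) = emb g X ((mstep tab)^[j] s) := by
  intro j
  induction j with
  | zero => intro _; rfl
  | succ j ih =>
    intro hj
    rw [Function.iterate_succ_apply', ih (by omega), Function.iterate_succ_apply']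
    exact nxt_emb g X tab _ (h _ (pos_mem tab s k j (by omega)))

/-- The relative table of the end window, `o` being `0` or `3`. -/
def tabR (o : ℤ) (q : ℤ × ℤ) : Bool :=
  if q.1 < 3 then look winL ((o + q.1) % 6) q.2 else look bgL ((o + q.1) % 6) q.2

/-- The cells visited in the window in the first kind of round (latest first). -/
def path0 : List (ℤ × ℤ) :=
  ([(0, 0), (0, 1), (1, 1), (1, 0), (2, 0), (2, -1), (3, -1), (3, -2), (2, -2), (2, -1), (3, -1),
    (3, 0), (2, 0), (2, -1), (3, -1), (3, -2), (4, -2), (4, -1), (5, -1), (5, 0), (4, 0), (4, 1),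
    (3, 1), (3, 0), (2, 0), (2, 1), (1, 1), (1, 0), (0, 0), (0, 1)] : List (ℤ × ℤ)).reverse

/-- The cells visited in the window in the second kind of round (latest first). -/
def path3 : List (ℤ × ℤ) :=
  ([(0, 1), (0, 0), (1, 0), (1, 1), (2, 1), (2, 2), (3, 2), (3, 3), (2, 3), (2, 2), (3, 2), (3, 1),
    (2, 1), (2, 2), (3, 2), (3, 3), (4, 3), (4, 2), (5, 2), (5, 1), (4, 1), (4, 0), (3, 0), (3, 1),
    (2, 1), (2, 0), (1, 0), (1, 1), (0, 1), (0, 0)] : List (ℤ × ℤ)).reverse

theorem run0 : (mstep (tabR 0))^[30] ⟨[], (0, 0), .E⟩ = ⟨path0, (-1, 1), .W⟩ := by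
  decide

theorem run3 : (mstep (tabR 3))^[30] ⟨[], (0, 1), .E⟩ = ⟨path3, (-1, 0), .W⟩ := by
  decide

/-- All cells of `l` lie in the window. -/
def inWin (l : List (ℤ × ℤ)) : Prop :=
  ∀ q ∈ l, 0 ≤ q.1 ∧ q.1 < 6 ∧ -2 ≤ q.2 ∧ q.2 ≤ 3

instance (l : List (ℤ × ℤ)) : Decidable (inWin l) := by unfold inWin; infer_instance

theorem win_path0 : inWin path0 := by decide

theorem win_path3 : inWin path3 := by decide

/-- After the round the first three columns of the window are steady. -/
theorem after0_steady : ∀ i ∈ [(0 : ℤ), 1, 2],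
    xor (tabR 0 (i, 0)) (par path0 (i, 0)) = false ∧
    xor (tabR 0 (i, 1)) (par path0 (i, 1)) = true := by decide

theorem after3_steady : ∀ i ∈ [(0 : ℤ), 1, 2],
    xor (tabR 3 (i, 0)) (par path3 (i, 0)) = false ∧
    xor (tabR 3 (i, 1)) (par path3 (i, 1)) = true := by decide

/-- After the round the last three columns of the window carry the new end pattern. -/
theorem after0_win : ∀ i ∈ [(3 : ℤ), 4, 5], ∀ j ∈ [(-2 : ℤ), -1, 0, 1, 2, 3],
    xor (tabR 0 (i, j)) (par path0 (i, j)) = look winL ((0 + i) % 6) j := by decide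

theorem after3_win : ∀ i ∈ [(3 : ℤ), 4, 5], ∀ j ∈ [(-2 : ℤ), -1, 0, 1, 2, 3],
    xor (tabR 3 (i, j)) (par path3 (i, j)) = look winL ((3 + i) % 6) j := by decide

end Q31.Ant
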