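import Mathlib
import Pool.Agent.Q31.AntGadget

/-!
# One round trip of the ant
-/

namespace Q31.Ant

/-- The right half plane is in its state number `n`: the first `3 n` columns are steady, the
next three columns carry the end pattern, and the remaining columns carry the background. -/
def Good (n : ℕ) (g : ℤ × ℤ → Bool) : Prop :=
  (∀ x : ℤ, 0 ≤ x → x < 3 * n → g (x, 0) = false ∧ g (x, 1) = true) ∧
  (∀ x y : ℤ, 3 * n ≤ x → -2 ≤ y → y ≤ 3 →
    g (x, y) = if x < 3 * n + 3 then look winL (x % 6) y else look bgL (x % 6) y)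

/-- The cells that may be visited in the right half of round `n`. -/
def Zr (n : ℕ) (q : ℤ × ℤ) : Prop :=
  0 ≤ q.1 ∧ (strip q ∨ (3 * (n : ℤ) ≤ q.1 ∧ -2 ≤ q.2 ∧ q.2 ≤ 3))

theorem mid_right (g : ℤ × ℤ → Bool) (a : ℤ) (h0 : g (a, 0) = false) (h1 : g (a, 1) = true) :
    (nxt ⟨g, (a, a % 2), .E⟩).p = (a, 1 - a % 2) := by
  rcases Int.emod_two_eq_zero_or_one a with ha | ha
  · rw [ha]; simp [nxt, h0, turnB, turn, Dir.vec]
  · rw [ha]; simp [nxt, h1, turnB, turn, Dir.vec]

/-- The general form of the passage through the end window. -/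
theorem window_run (n : ℕ) (g : ℤ × ℤ → Bool) (hg : Good n g) (o : ℤ) (e e' : ℤ)
    (path : List (ℤ × ℤ)) (ho : (3 * (n : ℤ)) % 6 = o)
    (hrun : (mstep (tabR o))^[30] ⟨[], (0, e), .E⟩ = ⟨path, (-1, e'), .W⟩)
    (hwin : inWin path) :
    Run (Zr n) 30 ⟨flipS 0 (3 * n) g, (3 * n, e), .E⟩
      ⟨fun q => xor (flipS 0 (3 * n) g q) (par path (q.1 - 3 * n, q.2)), (3 * n - 1, e'), .W⟩ := by
  have hst : (⟨flipS 0 (3 * n) g, (3 * n, e), .E⟩ : St)
      = emb (flipS 0 (3 * n) g) (3 * n) ⟨[], (0, e), .E⟩ := by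
    unfold emb
    simp [par]
  have htab : ∀ q ∈ ((mstep (tabR o))^[30] ⟨[], (0, e), .E⟩).mods,
      flipS 0 (3 * n) g (q.1 + 3 * n, q.2) = tabR o q := by
    rw [hrun]
    intro q hq
    obtain ⟨h1, h2, h3, h4⟩ := hwin q hq
    have e1 : flipS 0 (3 * n) g (q.1 + 3 * n, q.2) = g (q.1 + 3 * n, q.2) := by
      unfold flipS
      rw [if_neg (by simp only; omega)]
    have e2 : (q.1 + 3 * (n : ℤ)) % 6 = (o + q.1) % 6 := by omega
    rw [e1, hg.2 _ _ (by omega) h3 h4, e2]
    unfold tabR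
    by_cases h : q.1 < 3
    · rw [if_pos h, if_pos (by omega)]
    · rw [if_neg h, if_neg (by omega)]
  have hit := iter_emb (flipS 0 (3 * n) g) (3 * n) (tabR o) ⟨[], (0, e), .E⟩ 30 htab
  refine ⟨?_, ?_⟩
  · rw [hst, hit 30 le_rfl, hrun]
    unfold emb
    simp only [St.mk.injEq, Prod.mk.injEq, and_true, true_and]
    ring
  · intro j hj
    rw [hst, hit j (by omega)]
    have hm := pos_mem (tabR o) ⟨[], (0, e), .E⟩ 30 j hj
    rw [hrun] at hm
    obtain ⟨h1, h2, h3, h4⟩ := hwin _ hm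
    unfold Zr emb
    simp only
    refine ⟨by omega, Or.inr ⟨by omega, h3, h4⟩⟩

/-- The new grid is in the next state. -/
theorem good_next (n : ℕ) (g g' : ℤ × ℤ → Bool) (hg : Good n g) (o : ℤ)
    (path : List (ℤ × ℤ)) (ho : (3 * (n : ℤ)) % 6 = o) (hwin : inWin path)
    (hs : ∀ i ∈ [(0 : ℤ), 1, 2],
      xor (tabR o (i, 0)) (par path (i, 0)) = false ∧
      xor (tabR o (i, 1)) (par path (i, 1)) = true)
    (hw : ∀ i ∈ [(3 : ℤ), 4, 5], ∀ j ∈ [(-2 : ℤ), -1, 0, 1, 2, 3],
      xor (tabR o (i, j)) (par path (i, j)) = look winL ((o + i) % 6) j)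
    (hlow : ∀ x y : ℤ, 0 ≤ x → x < 3 * n → (y = 0 ∨ y = 1) → g' (x, y) = g (x, y))
    (hhigh : ∀ x y : ℤ, 3 * n ≤ x → g' (x, y) = xor (g (x, y)) (par path (x - 3 * n, y))) :
    Good (n + 1) g' := by
  have htab : ∀ i j : ℤ, 0 ≤ i → i < 6 → -2 ≤ j → j ≤ 3 → g (i + 3 * n, j) = tabR o (i, j) := by
    intro i j h1 h2 h3 h4
    have e2 : (i + 3 * (n : ℤ)) % 6 = (o + i) % 6 := by omega
    rw [hg.2 _ _ (by omega) h3 h4, e2]
    unfold tabR
    by_cases h : i < 3
    · rw [if_pos h, if_pos (by omega)]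
    · rw [if_neg h, if_neg (by omega)]
  refine ⟨?_, ?_⟩
  · intro x hx hx'
    push_cast at hx'
    by_cases h : x < 3 * n
    · rw [hlow x 0 hx h (Or.inl rfl), hlow x 1 hx h (Or.inr rfl)]
      exact hg.1 x hx h
    · obtain ⟨i, hi⟩ : ∃ i, i = x - 3 * n := ⟨_, rfl⟩
      have hi3 : i ∈ [(0 : ℤ), 1, 2] := by
        have : i = 0 ∨ i = 1 ∨ i = 2 := by omega
        simpa using this
      have hx2 : x = i + 3 * n := by omega
      rw [hhigh x 0 (by omega), hhigh x 1 (by omega), ← hi, hx2,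
        htab i 0 (by omega) (by omega) (by omega) (by omega),
        htab i 1 (by omega) (by omega) (by omega) (by omega)]
      exact hs i hi3
  · intro x y hx hy hy'
    push_cast at hx ⊢
    obtain ⟨i, hi⟩ : ∃ i, i = x - 3 * n := ⟨_, rfl⟩
    have hx2 : x = i + 3 * n := by omega
    rw [hhigh x y (by omega), ← hi]
    by_cases h : i < 6
    · rw [if_pos (by omega)]
      have hi3 : i ∈ [(3 : ℤ), 4, 5] := by
        have : i = 3 ∨ i = 4 ∨ i = 5 := by omega
        simpa using this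
      have hj : y ∈ [(-2 : ℤ), -1, 0, 1, 2, 3] := by
        have : y = -2 ∨ y = -1 ∨ y = 0 ∨ y = 1 ∨ y = 2 ∨ y = 3 := by omega
        simpa using this
      have e2 : x % 6 = (o + i) % 6 := by omega
      rw [e2, ← hw i hi3 y hj, hx2, htab i y (by omega) h hy hy']
    · rw [if_neg (by omega)]
      rw [par_of_notMem path (i, y) (fun hm => by
        obtain ⟨_, h2, _, _⟩ := hwin _ hm
        simp only at h2
        omega)]
      rw [hg.2 x y (by omega) hy hy', if_neg (by omega)]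
      simp

/-- The right half of a round. -/
theorem half_round (n : ℕ) (g : ℤ × ℤ → Bool) (hg : Good n g) :
    ∃ (k : ℕ) (g' : ℤ × ℤ → Bool), Run (Zr n) k ⟨g, (0, 0), .E⟩ ⟨g', (-1, 1), .W⟩ ∧ 0 < k ∧
      Good (n + 1) g' ∧ (∀ q : ℤ × ℤ, q.1 < 0 → g' q = g q) ∧
      ∀ a b : ℤ, 0 ≤ a → a < 3 * n → (b = 0 ∨ b = 1) →
        ∃ j < k, (nxt^[j] ⟨g, (0, 0), .E⟩).p = (a, b) := by
  -- data depending on the parity of `n`
  obtain ⟨o, e, e', path, ho, he, he', hrun, hwin, hs, hw⟩ : ∃ (o e e' : ℤ)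
      (path : List (ℤ × ℤ)), (3 * (n : ℤ)) % 6 = o ∧ (3 * (n : ℤ)) % 2 = e ∧
      (3 * (n : ℤ) - 1) % 2 = e' ∧
      (mstep (tabR o))^[30] ⟨[], (0, e), .E⟩ = ⟨path, (-1, e'), .W⟩ ∧ inWin path ∧
      (∀ i ∈ [(0 : ℤ), 1, 2],
        xor (tabR o (i, 0)) (par path (i, 0)) = false ∧
        xor (tabR o (i, 1)) (par path (i, 1)) = true) ∧
      (∀ i ∈ [(3 : ℤ), 4, 5], ∀ j ∈ [(-2 : ℤ), -1, 0, 1, 2, 3],
        xor (tabR o (i, j)) (par path (i, j)) = look winL ((o + i) % 6) j) := by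
    rcases Int.emod_two_eq_zero_or_one (n : ℤ) with h | h
    · exact ⟨0, 0, 1, path0, by omega, by omega, by omega, run0, win_path0, after0_steady,
        after0_win⟩
    · exact ⟨3, 1, 0, path3, by omega, by omega, by omega, run3, win_path3, after3_steady,
        after3_win⟩
  have hcast : ((3 * n : ℕ) : ℤ) = 3 * (n : ℤ) := by push_cast; ring
  -- first pass
  have p1 := pass_right (3 * n) g 0 (fun x hx hx' => hg.1 x hx (by rw [hcast] at hx'; omega))
  rw [hcast, zero_add, he] at p1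
  have p1' : Run (Zr n) (2 * (3 * n)) ⟨g, (0, 0), .E⟩ ⟨flipS 0 (3 * n) g, (3 * n, e), .E⟩ :=
    p1.mono (fun q hq => ⟨hq.1, Or.inl hq.2⟩)
  -- window
  have p2 := window_run n g hg o e e' path ho hrun hwin
  -- last pass
  have hneg : ∀ x y : ℤ, x < 3 * n → par path (x - 3 * n, y) = false := by
    intro x y hx
    apply par_of_notMem
    intro hm
    obtain ⟨h1, _, _, _⟩ := hwin _ hm
    simp only at h1
    omega
  have p3 := pass_left (3 * n)
    (fun q => xor (flipS 0 (3 * n) g q) (par path (q.1 - 3 * n, q.2))) 0 (by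
      intro x hx hx'
      rw [hcast] at hx'
      have := hg.1 x hx (by omega)
      simp only
      rw [hneg x 0 (by omega), hneg x 1 (by omega)]
      unfold flipS
      have h3 : x < 3 * (n : ℤ) := by omega
      simp [this, hx, h3])
  rw [hcast, zero_add, he'] at p3
  have p3' := p3.mono (Z' := Zr n) (fun q hq => ⟨hq.1, Or.inl hq.2⟩)
  have hfull := (p1'.trans p2).trans p3'
  refine ⟨_, _, hfull, by omega, ?_, ?_, ?_⟩
  · refine good_next n g _ hg o path ho hwin hs hw ?_ ?_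
    · intro x y hx hx' hy
      unfold flipS
      simp only
      rw [if_pos ⟨hx, hx', hy⟩, if_pos ⟨hx, hx', hy⟩, hneg x y hx']
      simp
    · intro x y hx
      unfold flipS
      simp only
      rw [if_neg (by omega), if_neg (by omega)]
  · intro q hq
    unfold flipS
    simp only
    rw [if_neg (by omega), if_neg (by omega), hneg q.1 q.2 (by omega)]
    simp
  · intro a b ha ha' hb
    obtain ⟨m, rfl⟩ := Int.eq_ofNat_of_zero_le ha
    have q1 := pass_right m g 0 (fun x hx hx' => hg.1 x hx (by omega))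
    rw [zero_add] at q1
    have hm : (m : ℤ) < 3 * n := ha'
    have hm' : m < 3 * n := by omega
    have hc : flipS 0 m g (m, 0) = false ∧ flipS 0 m g (m, 1) = true := by
      have := hg.1 m (by omega) hm
      unfold flipS
      simp [this]
    have q2 := mid_right (flipS 0 m g) m hc.1 hc.2
    by_cases hcase : b = (m : ℤ) % 2
    · refine ⟨2 * m, by omega, ?_⟩
      have := q1.1
      simp only [EuclideanDomain.zero_mod] at this
      rw [this, hcase]
    · refine ⟨2 * m + 1, by omega, ?_⟩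
      rw [Function.iterate_succ_apply']
      have := q1.1
      simp only [EuclideanDomain.zero_mod] at this
      rw [this, q2]
      have : b = 1 - (m : ℤ) % 2 := by omega
      rw [this]

end Q31.Ant
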