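import Mathlib
import Pool.Agent.Q31.AntRound

/-!
# The recurrent set of the boolean ant
-/

namespace Q31.Ant

/-- The state at the beginning of round `n`. -/
def FG (n : ℕ) (s : St) : Prop :=
  s.p = (0, 0) ∧ s.d = .E ∧ Good n s.g ∧ Good n (fun q => s.g (rho q))

/-- The cells that may be visited in round `n` or later. -/
def Zf (n : ℕ) (q : ℤ × ℤ) : Prop :=
  (q.2 = 0 ∨ q.2 = 1) ∨ (3 * (n : ℤ) ≤ q.1 ∨ q.1 ≤ -1 - 3 * n)

theorem Good.congr {n : ℕ} {g g' : ℤ × ℤ → Bool} (h : Good n g)
    (hgg : ∀ q : ℤ × ℤ, 0 ≤ q.1 → g' q = g q) : Good n g' := by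
  refine ⟨?_, ?_⟩
  · intro x hx hx'
    rw [hgg (x, 0) hx, hgg (x, 1) hx]
    exact h.1 x hx hx'
  · intro x y hx hy hy'
    rw [hgg (x, y) (by simp only; omega)]
    exact h.2 x y hx hy hy'

theorem round (n : ℕ) (s : St) (hs : FG n s) :
    ∃ k, 0 < k ∧ FG (n + 1) (nxt^[k] s) ∧ (∀ j < k, Zf n (nxt^[j] s).p) ∧
      ∀ a b : ℤ, (b = 0 ∨ b = 1) → -(3 * (n : ℤ)) ≤ a → a < 3 * n →
        ∃ j < k, (nxt^[j] s).p = (a, b) := by
  obtain ⟨g, p, d⟩ := s
  obtain ⟨hp, hd, h1, h2⟩ := hs
  simp only at hp hd h1 h2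
  subst hp hd
  obtain ⟨k, g1, r1, hk, hg1, hleft, hv1⟩ := half_round n g h1
  have hR : Rot ⟨g1, (-1, 1), .W⟩ = ⟨fun q => g1 (rho q), (0, 0), .E⟩ := by
    simp [Rot, rho, opp]
  have hG2 : Good n (fun q => g1 (rho q)) := h2.congr (fun q hq => hleft _ (by
    show -1 - q.1 < 0
    omega))
  obtain ⟨l, g2, r2, hl, hg2, hleft2, hv2⟩ := half_round n _ hG2
  -- the second half in the original frame
  have hst : ∀ j, nxt^[j] ⟨g1, (-1, 1), .W⟩
      = Rot (nxt^[j] ⟨fun q => g1 (rho q), (0, 0), .E⟩) := by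
    intro j
    rw [← hR, iter_Rot, Rot_Rot]
  have hend : nxt^[l] ⟨g1, (-1, 1), .W⟩ = ⟨fun q => g2 (rho q), (0, 0), .E⟩ := by
    rw [hst, r2.1]
    simp [Rot, rho, opp]
  refine ⟨l + k, by omega, ?_, ?_, ?_⟩
  · rw [Function.iterate_add_apply, r1.1, hend]
    refine ⟨rfl, rfl, ?_, ?_⟩
    · refine hg1.congr (fun q hq => ?_)
      show g2 (rho q) = g1 q
      rw [hleft2 (rho q) (by show -1 - q.1 < 0; omega), rho_rho]
    · have : (fun q => g2 (rho (rho q))) = g2 := by
        funext q; rw [rho_rho]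
      show Good (n + 1) (fun q => g2 (rho (rho q)))
      rw [this]
      exact hg2
  · intro j hj
    by_cases hjk : j < k
    · have := r1.2 j hjk
      rcases this.2 with h | h
      · exact Or.inl h
      · exact Or.inr (Or.inl h.1)
    · have e : j = (j - k) + k := by omega
      rw [e, Function.iterate_add_apply, r1.1, hst]
      have := r2.2 (j - k) (by omega)
      set q := (nxt^[j - k] ⟨fun q => g1 (rho q), (0, 0), .E⟩).p with hq
      show Zf n (rho q)
      rcases this with ⟨hq0, h | h⟩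
      · refine Or.inl ?_
        rcases h with h | h
        · right; show 1 - q.2 = 1; omega
        · left; show 1 - q.2 = 0; omega
      · refine Or.inr (Or.inr ?_)
        show -1 - q.1 ≤ -1 - 3 * (n : ℤ)
        omega
  · intro a b hb ha ha'
    by_cases h0 : 0 ≤ a
    · obtain ⟨j, hj, hj'⟩ := hv1 a b h0 ha' hb
      exact ⟨j, by omega, hj'⟩
    · obtain ⟨j, hj, hj'⟩ := hv2 (-1 - a) (1 - b) (by omega) (by omega) (by omega)
      refine ⟨j + k, by omega, ?_⟩
      rw [Function.iterate_add_apply, r1.1, hst]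
      show rho (nxt^[j] ⟨fun q => g1 (rho q), (0, 0), .E⟩).p = (a, b)
      rw [hj']
      ext
      · show -1 - (-1 - a) = a; ring
      · show 1 - (1 - b) = b; ring

/-- The initial grid on the right half plane. -/
def init (q : ℤ × ℤ) : Bool :=
  if q.1 < 3 then look winL (q.1 % 6) q.2 else look bgL (q.1 % 6) q.2

/-- The initial state. -/
def s0 : St where
  g := fun q => if 0 ≤ q.1 then init q else init (rho q)
  p := (0, 0)
  d := .E

theorem FG_s0 : FG 0 s0 := by
  refine ⟨rfl, rfl, ⟨?_, ?_⟩, ⟨?_, ?_⟩⟩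
  · intro x hx hx'
    push_cast at hx'
    omega
  · intro x y hx hy hy'
    have hx : 0 ≤ x := by simpa using hx
    show (if 0 ≤ x then init (x, y) else init (rho (x, y))) = _
    rw [if_pos hx]
    unfold init
    simp
  · intro x hx hx'
    push_cast at hx'
    omega
  · intro x y hx hy hy'
    have hx : 0 ≤ x := by simpa using hx
    show (if 0 ≤ (rho (x, y)).1 then init (rho (x, y)) else init (rho (rho (x, y)))) = _
    rw [if_neg (by show ¬ 0 ≤ -1 - x; omega), rho_rho]
    unfold init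
    simp

theorem exists_time (n : ℕ) : ∃ t ≥ n, FG n (nxt^[t] s0) := by
  induction n with
  | zero => exact ⟨0, le_rfl, FG_s0⟩
  | succ n ih =>
    obtain ⟨t, ht, hF⟩ := ih
    obtain ⟨k, hk, hF', _, _⟩ := round n _ hF
    refine ⟨k + t, by omega, ?_⟩
    rw [Function.iterate_add_apply]
    exact hF'

theorem later (n : ℕ) (j : ℕ) : ∀ (m : ℕ) (s : St), n ≤ m → FG m s → Zf n (nxt^[j] s).p := by
  induction j using Nat.strong_induction_on with
  | _ j ih =>
    intro m s hm hF
    obtain ⟨k, hk, hF', hZ, _⟩ := round m s hF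
    by_cases hj : j < k
    · rcases hZ j hj with h | h
      · exact Or.inl h
      · right; omega
    · have e : j = (j - k) + k := by omega
      rw [e, Function.iterate_add_apply]
      exact ih (j - k) (by omega) (m + 1) _ (by omega) hF'

/-- The recurrent set of the boolean ant is the strip. -/
theorem rec_s0 (c : ℤ × ℤ) :
    {t : ℕ | (nxt^[t] s0).p = c}.Infinite ↔ (c.2 = 0 ∨ c.2 = 1) := by
  obtain ⟨a, b⟩ := c
  constructor
  · intro hinf
    by_contra hb
    simp only at hb
    apply hinf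
    obtain ⟨t, ht, hF⟩ := exists_time (a.natAbs + 1)
    apply (Set.finite_lt_nat t).subset
    intro u hu
    change (nxt^[u] s0).p = (a, b) at hu
    show u < t
    by_contra hut
    have e : u = (u - t) + t := by omega
    have hz := later (a.natAbs + 1) (u - t) (a.natAbs + 1) _ le_rfl hF
    rw [← Function.iterate_add_apply, ← e, hu] at hz
    rcases hz with hz | hz
    · exact hb hz
    · simp only at hz
      omega
  · intro hb
    simp only at hb
    apply Set.infinite_of_forall_exists_gt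
    intro N
    obtain ⟨t, ht, hF⟩ := exists_time (a.natAbs + N + 1)
    obtain ⟨k, hk, _, _, hv⟩ := round _ _ hF
    obtain ⟨j, hj, hj'⟩ := hv a b hb (by omega) (by omega)
    refine ⟨j + t, ?_, by omega⟩
    show (nxt^[j + t] s0).p = (a, b)
    rw [Function.iterate_add_apply]
    exact hj'

end Q31.Ant
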